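import Pool.Agent.Y492.AL.Stm
import Pool.Agent.H973R3.NC.A4L

/-!
# Project AL, job MA: tail of the first derivative
-/

set_option autoImplicit false

namespace Pool.Agent.Y341.AL

open H974 H12S H973N Finset Pool.Agent.Y492.AL

theorem RE_weak {a b c d : ℤ} {e : Edg} (h : e ∈ RE a b c d) :
    (a ≤ e.1 ∧ e.1 ≤ b) ∧ (c ≤ e.2.1 ∧ e.2.1 ≤ d) := by
  obtain ⟨x, y, _ | _⟩ := e
  · rw [mem_RE_false] at h
    simp only
    omega
  · rw [mem_RE_true] at h
    simp only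
    omega

theorem dst_nonneg (e f : Edg) : 0 ≤ dst e f := by
  unfold dst
  exact le_max_of_le_left (abs_nonneg _)

theorem dst_self (e : Edg) : dst e e = 0 := by
  unfold dst
  simp

/-- the distance as a natural number -/
noncomputable def nd (e f : Edg) : ℕ := (dst e f).toNat

theorem nd_cast (e f : Edg) : ((nd e f : ℕ) : ℤ) = dst e f := by
  unfold nd
  exact Int.toNat_of_nonneg (dst_nonneg e f)

theorem dst_le_iff {e g : Edg} {m : ℤ} : dst e g ≤ m ↔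
    (-m ≤ e.1 - g.1 ∧ e.1 - g.1 ≤ m) ∧ (-m ≤ e.2.1 - g.2.1 ∧ e.2.1 - g.2.1 ≤ m) := by
  unfold dst
  rw [max_le_iff, abs_le, abs_le]

theorem Pf_CO {e f : Edg} (hne : e ≠ f) {F : Finset Edg} (h : Pf (cn e) f F) :
    Pf (CO {src e} {tgt e} ∅) f (F.erase e) := by
  obtain ⟨h1, h2⟩ := h
  constructor
  · refine ⟨src e, rfl, tgt e, rfl, ?_⟩
    unfold cn at h1
    rw [Finset.erase_insert_of_ne (Ne.symm hne)] at h1
    rwa [Set.union_empty]
  · rintro ⟨u, hu, v, hv, huv⟩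
    rw [Set.mem_singleton_iff] at hu hv
    rw [hu, hv, Set.union_empty] at huv
    apply h2
    unfold cn
    rw [Finset.erase_right_comm]
    exact huv

theorem L4_of {e f : Edg} {ρ : ℕ} (hρ : 1 ≤ ρ) (hd : (ρ:ℤ) + 1 ≤ dst e f) {F : Finset Edg}
    (h : Pf (cn e) f F) : L4 ρ f ↑F := by
  have hρ' : (1:ℤ) ≤ ρ := by exact_mod_cast hρ
  have hne : e ≠ f := by
    rintro rfl
    rw [dst_self] at hd
    linarith
  have hnot : ¬ dst e f ≤ ρ := by linarith
  have h1 : L4 ρ f ↑(F.erase e) := by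
    refine piv_L4 hρ (O := ∅) (I := {src e}) (J := {tgt e})
      (fun g hg => absurd hg (Set.notMem_empty g)) ?_ (Pf_CO hne h)
    intro v hv hv2
    apply hnot
    rw [dst_le_iff]
    obtain ⟨x, y, b⟩ := e
    simp only [Set.mem_union, Set.mem_singleton_iff] at hv
    simp only
    rcases hv with hv | hv
    · rw [src_mk] at hv
      rw [hv] at hv2
      simp only at hv2
      omega
    · cases b
      · rw [tgt_false] at hv
        rw [hv] at hv2
        simp only at hv2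
        omega
      · rw [tgt_true] at hv
        rw [hv] at hv2
        simp only at hv2
        omega
  refine (A4_congr ?_).1 h1
  intro g hg _
  have hge : g ≠ e := by
    rintro rfl
    apply hnot
    have := RE_weak hg
    rw [dst_le_iff]
    omega
  rw [Finset.mem_coe, Finset.mem_coe, Finset.mem_erase]
  exact ⟨fun h => h.2, fun h => ⟨hge, h⟩⟩

theorem L4_congr' {ρ : ℕ} {e : Edg} {F : Finset Edg} :
    L4 ρ e ↑F ↔ L4 ρ e ↑(F ∩ blk (bp e) ρ) := by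
  unfold L4
  apply A4_congr
  intro g hg _
  rw [Finset.mem_coe, Finset.mem_coe, Finset.mem_inter]
  exact ⟨fun h => ⟨h, hg⟩, fun h => h.1⟩

/-- the bound for one edge -/
noncomputable def w (C : ℝ) (r : ℕ) : ℝ := 4 * C * ((r:ℝ) + 1) ^ (-(5/4 : ℝ))

theorem two_pow : (2:ℝ) ^ (5/4 : ℝ) ≤ 4 := by
  calc (2:ℝ) ^ (5/4 : ℝ) ≤ (2:ℝ) ^ (2 : ℝ) :=
        Real.rpow_le_rpow_of_exponent_le (by norm_num) (by norm_num)
    _ = 4 := by norm_num

/-- comparison of powers -/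
theorem pow_cmp {x y : ℝ} (hx : 0 < x) (hxy : x ≤ 2 * y) :
    y ^ (-(5/4 : ℝ)) ≤ 4 * x ^ (-(5/4 : ℝ)) := by
  have hy : 0 < y := by linarith
  have h1 : (2 * y) ^ (-(5/4 : ℝ)) ≤ x ^ (-(5/4 : ℝ)) :=
    Real.rpow_le_rpow_of_nonpos hx hxy (by norm_num)
  rw [Real.mul_rpow (by norm_num) hy.le] at h1
  have h2 : (4:ℝ)⁻¹ ≤ (2:ℝ) ^ (-(5/4 : ℝ)) := by
    rw [Real.rpow_neg (by norm_num)]
    apply inv_anti₀ (by positivity) two_pow
  have h3 : 0 < y ^ (-(5/4 : ℝ)) := Real.rpow_pos_of_pos hy _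
  nlinarith

theorem w_pos {C : ℝ} (hC : 1 ≤ C) (r : ℕ) : 0 < w C r := by
  unfold w
  positivity

theorem w_a4 {C : ℝ} (hC : 1 ≤ C) {r : ℕ} (hr : 1 ≤ r) : C * (r:ℝ) ^ (-(5/4 : ℝ)) ≤ w C r := by
  unfold w
  have hr' : (1:ℝ) ≤ r := by exact_mod_cast hr
  have := pow_cmp (x := (r:ℝ) + 1) (y := (r:ℝ)) (by linarith) (by linarith)
  nlinarith

theorem w_zero {C : ℝ} (hC : 1 ≤ C) : 1 ≤ w C 0 := by
  unfold w
  norm_num
  linarith

/-- probability of the local event -/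
theorem local_le {q : ℝ} (h0 : 0 ≤ q) (h1 : q ≤ 1) {C : ℝ} (hC : 1 ≤ C)
    (hA : ∀ k : ℕ, 1 ≤ k → a4 q k ≤ C * (k:ℝ) ^ (-(5/4 : ℝ))) {e : Edg} {S : Finset Edg} {r : ℕ}
    (hr : blk (bp e) r ⊆ S) : PQ q S (fun F => r = 0 ∨ L4 r e ↑F) ≤ w C r := by
  have hok : Ok (fun _ : Edg => q) := fun _ => ⟨h0, h1⟩
  rcases Nat.eq_zero_or_pos r with h | h
  · subst h
    exact (Pr_le_one hok _ _).trans (w_zero hC)
  · have e1 : PQ q S (fun F => r = 0 ∨ L4 r e ↑F) = PQ q S (fun F => L4 r e ↑F) := by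
      refine Pr_congr fun F _ => ?_
      constructor
      · rintro (h2 | h2)
        · omega
        · exact h2
      · exact fun h2 => Or.inr h2
    rw [e1]
    exact (pr_L4 h0 h1 hr).trans ((hA r h).trans (w_a4 hC h))

theorem pair_le (hsym : S_SYM) {q : ℝ} (h0 : 0 ≤ q) (h1 : q ≤ 1) {C : ℝ} (hC : 1 ≤ C)
    (hA : ∀ k : ℕ, 1 ≤ k → a4 q k ≤ C * (k:ℝ) ^ (-(5/4 : ℝ))) {e f : Edg} {S : Finset Edg}
    {r r' : ℕ} (hd : (r:ℤ) + r' + 1 ≤ dst e f) (hr' : blk (bp e) r' ⊆ S)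
    (hr : blk (bp f) r ⊆ S) : PQ q S (Pf (cn e) f) ≤ w C r' * w C r := by
  have hok : Ok (fun _ : Edg => q) := fun _ => ⟨h0, h1⟩
  have hne : e ≠ f := by
    rintro rfl
    rw [dst_self] at hd
    omega
  have hcomm : dst f e = dst e f := by
    unfold dst
    rw [abs_sub_comm, abs_sub_comm f.2.1]
  have hdisj : Disjoint (blk (bp e) r') (blk (bp f) r) := by
    rw [Finset.disjoint_left]
    intro x hx hx'
    unfold blk bp at hx hx'
    have k1 := RE_weak hx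
    have k2 := RE_weak hx'
    simp only at k1 k2
    have : dst e f ≤ r + r' := by
      rw [dst_le_iff]
      omega
    omega
  have step : PQ q S (Pf (cn e) f) ≤
      PQ q S (fun F => (r' = 0 ∨ L4 r' e ↑F) ∧ (r = 0 ∨ L4 r f ↑F)) := by
    refine Pr_mono hok ?_
    intro F _ hF
    constructor
    · rcases Nat.eq_zero_or_pos r' with h | h
      · exact Or.inl h
      · exact Or.inr (L4_of h (by rw [hcomm]; omega) ((hsym.1 e f F hne).1 hF))
    · rcases Nat.eq_zero_or_pos r with h | h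
      · exact Or.inl h
      · exact Or.inr (L4_of h (by omega) hF)
  refine step.trans ?_
  have hprod : PQ q S (fun F => (r' = 0 ∨ L4 r' e ↑F) ∧ (r = 0 ∨ L4 r f ↑F)) =
      PQ q S (fun F => r' = 0 ∨ L4 r' e ↑F) * PQ q S (fun F => r = 0 ∨ L4 r f ↑F) := by
    refine Pr_indep hr' hr hdisj ?_ ?_
    · intro F _
      exact or_congr Iff.rfl L4_congr'
    · intro F _
      exact or_congr Iff.rfl L4_congr'
  rw [hprod]
  exact mul_le_mul (local_le h0 h1 hC hA hr') (local_le h0 h1 hC hA hr)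
    (Pr_nonneg hok _ _) (w_pos hC _).le

/-! ### Sums -/

theorem card_sphere (c : Edg) (T : Finset Edg) (d : ℕ) (hd : 1 ≤ d) :
    ((T.filter (fun f => nd c f = d)).card : ℝ) ≤ 24 * d := by
  classical
  set A : Finset Edg := ({c.1 - d, c.1 + d} : Finset ℤ) ×ˢ
    (Finset.Icc (c.2.1 - d) (c.2.1 + d) ×ˢ (Finset.univ : Finset Bool)) with hA
  set B : Finset Edg := (Finset.Icc (c.1 - d) (c.1 + d)) ×ˢ
    (({c.2.1 - d, c.2.1 + d} : Finset ℤ) ×ˢ (Finset.univ : Finset Bool)) with hB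
  have hsub : T.filter (fun f => nd c f = d) ⊆ A ∪ B := by
    intro f hf
    rw [Finset.mem_filter] at hf
    have h1 : dst c f = d := by
      rw [← nd_cast, hf.2]
    have h2 := dst_le_iff.1 h1.le
    have h3 : ¬ dst c f ≤ (d:ℤ) - 1 := by omega
    rw [dst_le_iff] at h3
    rw [Finset.mem_union, hA, hB]
    simp only [Finset.mem_product, Finset.mem_insert, Finset.mem_singleton, Finset.mem_Icc,
      Finset.mem_univ, and_true]
    omega
  have hcA : A.card ≤ 2 * ((2 * d + 1) * 2) := by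
    rw [hA, Finset.card_product, Finset.card_product, Int.card_Icc]
    have : (c.2.1 + (d:ℤ) + 1 - (c.2.1 - d)).toNat = 2 * d + 1 := by omega
    rw [this]
    simp only [Finset.card_univ, Fintype.card_bool]
    exact Nat.mul_le_mul_right _ Finset.card_le_two
  have hcB : B.card ≤ (2 * d + 1) * (2 * 2) := by
    rw [hB, Finset.card_product, Finset.card_product, Int.card_Icc]
    have : (c.1 + (d:ℤ) + 1 - (c.1 - d)).toNat = 2 * d + 1 := by omega
    rw [this]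
    simp only [Finset.card_univ, Fintype.card_bool]
    exact Nat.mul_le_mul_left _ (Nat.mul_le_mul_right _ Finset.card_le_two)
  have h4 : (T.filter (fun f => nd c f = d)).card ≤ 24 * d := by
    refine (Finset.card_le_card hsub).trans ((Finset.card_union_le _ _).trans ?_)
    omega
  exact_mod_cast h4

theorem radial (c : Edg) (T : Finset Edg) (R D : ℕ) (hT : ∀ f ∈ T, R < nd c f ∧ nd c f ≤ D)
    (g : ℕ → ℝ) (hg : ∀ d, 0 ≤ g d) :
    ∑ f ∈ T, g (nd c f) ≤ ∑ d ∈ Finset.Ioc R D, 24 * (d:ℝ) * g d := by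
  rw [← Finset.sum_fiberwise_of_maps_to (g := nd c) (t := Finset.Ioc R D)
    (fun f hf => Finset.mem_Ioc.2 (hT f hf))]
  apply Finset.sum_le_sum
  intro d hd
  rw [Finset.mem_Ioc] at hd
  have e1 : ∑ f ∈ T.filter (fun f => nd c f = d), g (nd c f) =
      ((T.filter (fun f => nd c f = d)).card : ℝ) * g d := by
    rw [Finset.sum_congr rfl (g := fun _ => g d), Finset.sum_const, nsmul_eq_mul]
    intro f hf
    rw [(Finset.mem_filter.1 hf).2]
  rw [e1]
  exact mul_le_mul_of_nonneg_right (card_sphere c T d (by omega)) (hg d)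

theorem tail_step {a : ℝ} (ha : 1 ≤ a) :
    (a + 1) ^ (-(3/2 : ℝ)) ≤ 2 * (a ^ (-(1/2 : ℝ)) - (a + 1) ^ (-(1/2 : ℝ))) := by
  have ha0 : 0 < a := by linarith
  have hb0 : 0 < a + 1 := by linarith
  have e1 : a ^ (-(1/2 : ℝ)) = (√a)⁻¹ := by
    rw [Real.rpow_neg ha0.le, Real.sqrt_eq_rpow]
  have e2 : (a + 1) ^ (-(1/2 : ℝ)) = (√(a + 1))⁻¹ := by
    rw [Real.rpow_neg hb0.le, Real.sqrt_eq_rpow]
  have e3 : (a + 1) ^ (-(3/2 : ℝ)) = (√(a + 1))⁻¹ * (a + 1)⁻¹ := by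
    rw [← e2, ← Real.rpow_neg_one (a + 1), ← Real.rpow_add hb0]
    norm_num
  rw [e1, e2, e3]
  have hx : 0 < √a := Real.sqrt_pos.2 ha0
  have hy : 0 < √(a + 1) := Real.sqrt_pos.2 hb0
  have hx2 : √a ^ 2 = a := Real.sq_sqrt ha0.le
  have hy2 : √(a + 1) ^ 2 = a + 1 := Real.sq_sqrt hb0.le
  set x := √a
  set y := √(a + 1)
  have key : x * (1 + 2 * y ^ 2) ≤ 2 * y ^ 3 := by
    apply le_of_sq_le_sq _ (by positivity)
    have : (x * (1 + 2 * y ^ 2)) ^ 2 = a * (1 + 2 * (a + 1)) ^ 2 := by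
      rw [mul_pow, hx2, hy2]
    rw [this]
    have h2 : (2 * y ^ 3) ^ 2 = 4 * (a + 1) ^ 3 := by
      rw [← hy2]; ring
    rw [h2]
    nlinarith [sq_nonneg a]
  rw [← hy2]
  have : 2 * (x⁻¹ - y⁻¹) - y⁻¹ * (y ^ 2)⁻¹ = (2 * y ^ 3 - x * (1 + 2 * y ^ 2)) / (x * y ^ 3) := by
    field_simp
    ring
  have h5 : 0 ≤ (2 * y ^ 3 - x * (1 + 2 * y ^ 2)) / (x * y ^ 3) :=
    div_nonneg (by linarith) (by positivity)
  linarith

theorem tail32 (R D : ℕ) (hR : 1 ≤ R) :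
    ∑ d ∈ Finset.Ioc R D, (d:ℝ) ^ (-(3/2 : ℝ)) ≤ 2 * (R:ℝ) ^ (-(1/2 : ℝ)) := by
  rcases Nat.lt_or_ge D R with h | h
  · rw [Finset.Ioc_eq_empty (by omega), Finset.sum_empty]
    positivity
  · have : ∑ d ∈ Finset.Ioc R D, (d:ℝ) ^ (-(3/2 : ℝ)) ≤
        2 * ((R:ℝ) ^ (-(1/2 : ℝ)) - (D:ℝ) ^ (-(1/2 : ℝ))) := by
      induction D, h using Nat.le_induction with
      | base => simp
      | succ D hD ih =>
        rw [← Finset.insert_Ioc_right_eq_Ioc_add_one hD, Finset.sum_insert (by simp)]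
        have hD1 : (1:ℝ) ≤ D := by
          have : 1 ≤ D := hR.trans hD
          exact_mod_cast this
        have := tail_step hD1
        push_cast
        linarith
    have h2 : 0 ≤ (D:ℝ) ^ (-(1/2 : ℝ)) := by positivity
    linarith

theorem sum54 : ∃ T : ℝ, 0 < T ∧ ∀ n : ℕ, ∑ k ∈ Finset.range n, ((k:ℝ) + 1) ^ (-(5/4 : ℝ)) ≤ T := by
  have h1 : Summable (fun n : ℕ => (n:ℝ) ^ (-(5/4 : ℝ))) := Real.summable_nat_rpow.2 (by norm_num)
  have h2 := (summable_nat_add_iff 1).2 h1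
  have h3 : Summable (fun k : ℕ => ((k:ℝ) + 1) ^ (-(5/4 : ℝ))) := by
    refine h2.congr fun k => ?_
    push_cast
    rfl
  refine ⟨∑' k : ℕ, ((k:ℝ) + 1) ^ (-(5/4 : ℝ)) + 1, ?_, fun n => ?_⟩
  · have : 0 ≤ ∑' k : ℕ, ((k:ℝ) + 1) ^ (-(5/4 : ℝ)) := tsum_nonneg (fun k => by positivity)
    linarith
  · have := h3.sum_le_tsum (Finset.range n) (fun k _ => by positivity)
    linarith

theorem card_box (m : ℕ) (hm : 1 ≤ m) : ((boxE m).card : ℝ) ≤ 18 * (m:ℝ) ^ 2 := by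
  have h1 : boxE m ⊆ (Finset.Icc (-(m:ℤ)) m) ×ˢ ((Finset.Icc (-(m:ℤ)) m) ×ˢ
      (Finset.univ : Finset Bool)) := by
    intro e he
    unfold boxE at he
    have := RE_weak he
    simp only [Finset.mem_product, Finset.mem_Icc, Finset.mem_univ, and_true]
    exact this
  have h2 := Finset.card_le_card h1
  rw [Finset.card_product, Finset.card_product, Int.card_Icc] at h2
  have h3 : ((m:ℤ) + 1 - -(m:ℤ)).toNat = 2 * m + 1 := by omega
  rw [h3] at h2
  simp only [Finset.card_univ, Fintype.card_bool] at h2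
  have h4 : (boxE m).card ≤ 18 * m ^ 2 := by nlinarith
  exact_mod_cast h4

/-! ### The two parts -/

theorem box_pos {m : ℕ} {e : Edg} (he : e ∈ boxE m) :
    (-(m:ℤ) ≤ e.1 ∧ e.1 ≤ m) ∧ (-(m:ℤ) ≤ e.2.1 ∧ e.2.1 ≤ m) := by
  unfold boxE at he
  exact RE_weak he

theorem o_pos {f : Edg} {n : ℕ} (h : nd (e0 true) f ≤ n) :
    (-(n:ℤ) ≤ f.1 ∧ f.1 ≤ n) ∧ (-(n:ℤ) ≤ f.2.1 ∧ f.2.1 ≤ n) := by
  have h1 : dst (e0 true) f ≤ n := by
    rw [← nd_cast]
    exact_mod_cast h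
  rw [dst_le_iff] at h1
  unfold e0 at h1
  simp only at h1
  omega

theorem near_le (hsym : S_SYM) {q : ℝ} (h0 : 0 ≤ q) (h1 : q ≤ 1) {C : ℝ} (hC : 1 ≤ C)
    (hA : ∀ k : ℕ, 1 ≤ k → a4 q k ≤ C * (k:ℝ) ^ (-(5/4 : ℝ))) {m R : ℕ} (hR : 1 ≤ R)
    (hRm : R ≤ m) {e : Edg} (he : e ∈ boxE m) :
    ∑ f ∈ ((boxE (4 * m)).filter (fun f => (R:ℤ) < dst e f)).filter
      (fun f => nd (e0 true) f ≤ 2 * m + 1), PQ q (boxE (4 * m)) (Pf (cn e) f) ≤
      12288 * C ^ 2 * (R:ℝ) ^ (-(1/2 : ℝ)) := by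
  have hm : 1 ≤ m := hR.trans hRm
  set T := ((boxE (4 * m)).filter (fun f => (R:ℤ) < dst e f)).filter
      (fun f => nd (e0 true) f ≤ 2 * m + 1) with hTdef
  set g : ℕ → ℝ := fun d => 256 * C ^ 2 * (d:ℝ) ^ (-(5/2 : ℝ)) with hg
  have hep := box_pos he
  have hT : ∀ f ∈ T, R < nd e f ∧ nd e f ≤ 3 * m + 1 := by
    intro f hf
    rw [hTdef, Finset.mem_filter, Finset.mem_filter] at hf
    have k1 := nd_cast e f
    have k2 := o_pos hf.2
    push_cast at k2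
    have k3 : dst e f ≤ 3 * m + 1 := by
      rw [dst_le_iff]
      omega
    have k4 := hf.1.2
    omega
  have hterm : ∀ f ∈ T, PQ q (boxE (4 * m)) (Pf (cn e) f) ≤ g (nd e f) := by
    intro f hf
    obtain ⟨t1, t2⟩ := hT f hf
    have k1 := nd_cast e f
    rw [hTdef, Finset.mem_filter, Finset.mem_filter] at hf
    have k2 := o_pos hf.2
    push_cast at k2
    obtain ⟨r, hr⟩ : ∃ r, r = (nd e f - 1) / 2 := ⟨_, rfl⟩
    have hr1 : 2 * r + 1 ≤ nd e f := by omega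
    have hr2 : nd e f ≤ 2 * (r + 1) := by omega
    have hr3 : 2 * r ≤ 3 * m := by omega
    have b1 : blk (bp e) r ⊆ boxE (4 * m) := by
      unfold blk bp boxE
      apply RE_subset <;> push_cast <;> omega
    have b2 : blk (bp f) r ⊆ boxE (4 * m) := by
      unfold blk bp boxE
      apply RE_subset <;> push_cast <;> omega
    have h3 := pair_le hsym h0 h1 hC hA (r := r) (r' := r) (by omega) b1 b2
    have hd0 : (0:ℝ) < (nd e f : ℝ) := by
      have : 0 < nd e f := by omega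
      exact_mod_cast this
    have h4 : w C r ≤ 16 * C * (nd e f : ℝ) ^ (-(5/4 : ℝ)) := by
      unfold w
      have := pow_cmp (x := (nd e f : ℝ)) (y := (r:ℝ) + 1) hd0 (by exact_mod_cast hr2)
      nlinarith
    have h5 : (nd e f : ℝ) ^ (-(5/4 : ℝ)) * (nd e f : ℝ) ^ (-(5/4 : ℝ)) =
        (nd e f : ℝ) ^ (-(5/2 : ℝ)) := by
      rw [← Real.rpow_add hd0]
      norm_num
    refine h3.trans ((mul_le_mul h4 h4 (w_pos hC _).le ((w_pos hC _).le.trans h4)).trans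
      (le_of_eq ?_))
    rw [hg]
    simp only
    rw [← h5]
    ring
  refine (Finset.sum_le_sum hterm).trans ?_
  refine (radial e T R (3 * m + 1) hT g (fun d => by rw [hg]; positivity)).trans ?_
  have e1 : ∑ d ∈ Finset.Ioc R (3 * m + 1), 24 * (d:ℝ) * g d =
      6144 * C ^ 2 * ∑ d ∈ Finset.Ioc R (3 * m + 1), (d:ℝ) ^ (-(3/2 : ℝ)) := by
    rw [Finset.mul_sum]
    apply Finset.sum_congr rfl
    intro d hd
    rw [Finset.mem_Ioc] at hd
    have hd0 : (0:ℝ) < (d : ℝ) := by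
      have : 0 < d := by omega
      exact_mod_cast this
    have : (d:ℝ) ^ (-(3/2 : ℝ)) = (d:ℝ) * (d:ℝ) ^ (-(5/2 : ℝ)) := by
      nth_rewrite 2 [← Real.rpow_one (d:ℝ)]
      rw [← Real.rpow_add hd0]
      norm_num
    rw [this, hg]
    ring
  rw [e1]
  have := tail32 R (3 * m + 1) hR
  nlinarith [sq_nonneg C]

theorem far_le (hsym : S_SYM) {q : ℝ} (h0 : 0 ≤ q) (h1 : q ≤ 1) {C : ℝ} (hC : 1 ≤ C)
    (hA : ∀ k : ℕ, 1 ≤ k → a4 q k ≤ C * (k:ℝ) ^ (-(5/4 : ℝ))) {m R : ℕ} (hR : 1 ≤ R)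
    (hRm : R ≤ m) {e : Edg} (he : e ∈ boxE m) {T54 : ℝ} (_hT54 : 0 < T54)
    (hsum : ∀ n : ℕ, ∑ k ∈ Finset.range n, ((k:ℝ) + 1) ^ (-(5/4 : ℝ)) ≤ T54) :
    ∑ f ∈ ((boxE (4 * m)).filter (fun f => (R:ℤ) < dst e f)).filter
      (fun f => ¬ nd (e0 true) f ≤ 2 * m + 1), PQ q (boxE (4 * m)) (Pf (cn e) f) ≤
      64 * C ^ 2 * (1152 + 96 * T54) * (m:ℝ) ^ (-(1/4 : ℝ)) := by
  have hm : 1 ≤ m := hR.trans hRm
  have hm' : (1:ℝ) ≤ m := by exact_mod_cast hm
  have hm0 : (0:ℝ) < m := by linarith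
  set T := ((boxE (4 * m)).filter (fun f => (R:ℤ) < dst e f)).filter
      (fun f => ¬ nd (e0 true) f ≤ 2 * m + 1) with hTdef
  set G : ℕ → ℝ := fun s => (((4 * m - s : ℕ) : ℝ) + 1) ^ (-(5/4 : ℝ)) with hG
  have hep := box_pos he
  have hfpos : ∀ f ∈ T, 2 * m + 1 < nd (e0 true) f ∧ nd (e0 true) f ≤ 4 * m := by
    intro f hf
    rw [hTdef, Finset.mem_filter, Finset.mem_filter] at hf
    refine ⟨not_le.1 hf.2, ?_⟩
    have k1 := nd_cast (e0 true) f
    have k2 := box_pos hf.1.1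
    push_cast at k2
    have k3 : dst (e0 true) f ≤ 4 * m := by
      rw [dst_le_iff]
      unfold e0
      simp only
      omega
    omega
  have hterm : ∀ f ∈ T, PQ q (boxE (4 * m)) (Pf (cn e) f) ≤
      64 * C ^ 2 * (m:ℝ) ^ (-(5/4 : ℝ)) * (4 * (m:ℝ) ^ (-(5/4 : ℝ)) + G (nd (e0 true) f)) := by
    intro f hf
    obtain ⟨t1, t2⟩ := hfpos f hf
    have ks := nd_cast (e0 true) f
    obtain ⟨s, hs⟩ : ∃ s, s = nd (e0 true) f := ⟨_, rfl⟩
    rw [← hs] at t1 t2 ks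
    have k2 := o_pos (f := f) (n := s) hs.symm.le
    obtain ⟨h, hh⟩ : ∃ h, h = m / 2 := ⟨_, rfl⟩
    obtain ⟨r, hr⟩ : ∃ r, r = min h (4 * m - s) := ⟨_, rfl⟩
    have hrh : r ≤ h := by rw [hr]; exact min_le_left _ _
    have hrs : r ≤ 4 * m - s := by rw [hr]; exact min_le_right _ _
    have b1 : blk (bp e) h ⊆ boxE (4 * m) := by
      unfold blk bp boxE
      apply RE_subset <;> push_cast <;> omega
    have b2 : blk (bp f) r ⊆ boxE (4 * m) := by
      unfold blk bp boxE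
      apply RE_subset <;> push_cast <;> omega
    have hd : (r:ℤ) + h + 1 ≤ dst e f := by
      by_contra hcon
      have h5 : dst e f ≤ (r:ℤ) + h := by omega
      rw [dst_le_iff] at h5
      have h6 : dst (e0 true) f ≤ (m:ℤ) + (r + h) := by
        rw [dst_le_iff]
        unfold e0
        simp only
        omega
      omega
    have h3 := pair_le hsym h0 h1 hC hA (r := r) (r' := h) hd b1 b2
    have h4 : w C h ≤ 16 * C * (m:ℝ) ^ (-(5/4 : ℝ)) := by
      unfold w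
      have h5 : m ≤ 2 * (h + 1) := by omega
      have := pow_cmp (x := (m:ℝ)) (y := (h:ℝ) + 1) hm0 (by exact_mod_cast h5)
      nlinarith
    have h5 : w C r ≤ 4 * C * (4 * (m:ℝ) ^ (-(5/4 : ℝ)) + G s) := by
      have hGpos : 0 ≤ G s := by rw [hG]; positivity
      rcases le_total h (4 * m - s) with h6 | h6
      · have h7 : r = h := by rw [hr]; exact min_eq_left h6
        rw [h7]
        nlinarith
      · have h7 : r = 4 * m - s := by rw [hr]; exact min_eq_right h6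
        rw [h7]
        unfold w
        have h8 : 0 < (m:ℝ) ^ (-(5/4 : ℝ)) := Real.rpow_pos_of_pos hm0 _
        have h9 : (((4 * m - s : ℕ) : ℝ) + 1) ^ (-(5/4 : ℝ)) = G s := rfl
        rw [h9]
        nlinarith
    rw [← hs]
    refine h3.trans ((mul_le_mul h4 h5 (w_pos hC _).le ((w_pos hC _).le.trans h4)).trans
      (le_of_eq ?_))
    ring
  refine (Finset.sum_le_sum hterm).trans ?_
  rw [← Finset.mul_sum, Finset.sum_add_distrib, Finset.sum_const, nsmul_eq_mul]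
  have hcard : (T.card : ℝ) ≤ 288 * (m:ℝ) ^ 2 := by
    have c1 : T.card ≤ (boxE (4 * m)).card :=
      (Finset.card_le_card (Finset.filter_subset _ _)).trans
        (Finset.card_le_card (Finset.filter_subset _ _))
    have c2 := card_box (4 * m) (by omega)
    push_cast at c2
    have c3 : (T.card : ℝ) ≤ ((boxE (4 * m)).card : ℝ) := by exact_mod_cast c1
    nlinarith
  have hGsum : ∑ f ∈ T, G (nd (e0 true) f) ≤ 96 * m * T54 := by
    refine (radial (e0 true) T (2 * m + 1) (4 * m) hfpos G (fun d => by rw [hG]; positivity)).trans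
      ?_
    have s1 : ∑ d ∈ Finset.Ioc (2 * m + 1) (4 * m), 24 * (d:ℝ) * G d ≤
        ∑ d ∈ Finset.Ioc (2 * m + 1) (4 * m), 96 * m * G d := by
      apply Finset.sum_le_sum
      intro d hd
      rw [Finset.mem_Ioc] at hd
      have hGpos : 0 ≤ G d := by rw [hG]; positivity
      have hd4 : (d:ℝ) ≤ 4 * m := by exact_mod_cast hd.2
      nlinarith
    refine s1.trans ?_
    rw [← Finset.mul_sum]
    have s2 : ∑ d ∈ Finset.Ioc (2 * m + 1) (4 * m), G d ≤ ∑ d ∈ Finset.range (4 * m + 1), G d := by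
      apply Finset.sum_le_sum_of_subset_of_nonneg
      · intro d hd
        rw [Finset.mem_Ioc] at hd
        rw [Finset.mem_range]
        omega
      · intro d _ _
        rw [hG]
        positivity
    have s3 : ∑ d ∈ Finset.range (4 * m + 1), G d =
        ∑ k ∈ Finset.range (4 * m + 1), ((k:ℝ) + 1) ^ (-(5/4 : ℝ)) := by
      rw [← Finset.sum_range_reflect]
      apply Finset.sum_congr rfl
      intro k hk
      rw [Finset.mem_range] at hk
      rw [hG]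
      simp only
      have : 4 * m - (4 * m + 1 - 1 - k) = k := by omega
      rw [this]
    have s4 := hsum (4 * m + 1)
    have : ∑ d ∈ Finset.Ioc (2 * m + 1) (4 * m), G d ≤ T54 := by
      rw [s3] at s2
      exact s2.trans s4
    exact mul_le_mul_of_nonneg_left this (by positivity)
  set M := (m:ℝ) ^ (-(5/4 : ℝ)) with hM
  have hMpos : 0 < M := Real.rpow_pos_of_pos hm0 _
  have hMm : (m:ℝ) * M = (m:ℝ) ^ (-(1/4 : ℝ)) := by
    rw [hM]
    nth_rewrite 1 [← Real.rpow_one (m:ℝ)]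
    rw [← Real.rpow_add hm0]
    norm_num
  have hMle : (m:ℝ) * M ≤ 1 := by
    rw [hMm]
    exact Real.rpow_le_one_of_one_le_of_nonpos hm' (by norm_num)
  have hb : (T.card : ℝ) * (4 * M) + ∑ f ∈ T, G (nd (e0 true) f) ≤ (m:ℝ) * (1152 + 96 * T54) := by
    have c1 : (T.card : ℝ) * (4 * M) ≤ 288 * (m:ℝ) ^ 2 * (4 * M) :=
      mul_le_mul_of_nonneg_right hcard (by positivity)
    have c2 : 288 * (m:ℝ) ^ 2 * (4 * M) = 1152 * m * (m * M) := by ring
    have c3 : 1152 * (m:ℝ) * (m * M) ≤ 1152 * m * 1 :=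
      mul_le_mul_of_nonneg_left hMle (by positivity)
    nlinarith
  calc 64 * C ^ 2 * M * ((T.card : ℝ) * (4 * M) + ∑ f ∈ T, G (nd (e0 true) f))
      ≤ 64 * C ^ 2 * M * ((m:ℝ) * (1152 + 96 * T54)) :=
        mul_le_mul_of_nonneg_left hb (by positivity)
    _ = 64 * C ^ 2 * (1152 + 96 * T54) * ((m:ℝ) * M) := by ring
    _ = _ := by rw [hMm]

theorem ma : S_SYM → S_A4 → S_MA := by
  intro hsym hA4
  obtain ⟨C0, hC0, hA0⟩ := hA4
  obtain ⟨T54, hT54, hsum⟩ := sum54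
  set C : ℝ := max C0 1 with hCdef
  have hC : 1 ≤ C := le_max_right _ _
  have hA : ∀ q : ℝ, 0 ≤ q → q ≤ 1 → ∀ k : ℕ, 1 ≤ k → a4 q k ≤ C * (k:ℝ) ^ (-(5/4 : ℝ)) := by
    intro q h0 h1 k hk
    refine (hA0 q h0 h1 k hk).trans ?_
    exact mul_le_mul_of_nonneg_right (le_max_left _ _) (by positivity)
  set K1 : ℝ := 12288 * C ^ 2 with hK1
  set K2 : ℝ := 64 * C ^ 2 * (1152 + 96 * T54) with hK2
  have hK1p : 0 < K1 := by positivity
  have hK2p : 0 < K2 := by positivity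
  refine ⟨18 * (K1 + K2), by positivity, ?_⟩
  intro q h0 h1 m R hR hRm
  have hm : 1 ≤ m := hR.trans hRm
  set x := (R:ℝ) ^ (-(1/2 : ℝ)) with hx
  set y := (m:ℝ) ^ (-(1/4 : ℝ)) with hy
  have hxp : 0 ≤ x := by positivity
  have hyp : 0 ≤ y := by positivity
  have hper : ∀ e ∈ boxE m, ∑ f ∈ (boxE (4 * m)).filter (fun f => (R:ℤ) < dst e f),
      PQ q (boxE (4 * m)) (Pf (cn e) f) ≤ (K1 + K2) * (x + y) := by
    intro e he
    rw [← Finset.sum_filter_add_sum_filter_not _ (fun f => nd (e0 true) f ≤ 2 * m + 1)]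
    have n1 := near_le hsym h0 h1 hC (hA q h0 h1) hR hRm he
    have n2 := far_le hsym h0 h1 hC (hA q h0 h1) hR hRm he hT54 hsum
    have : K1 * x + K2 * y ≤ (K1 + K2) * (x + y) := by nlinarith
    linarith
  refine (Finset.sum_le_sum hper).trans ?_
  rw [Finset.sum_const, nsmul_eq_mul]
  have := card_box m hm
  have h5 : 0 ≤ (K1 + K2) * (x + y) := by positivity
  calc ((boxE m).card : ℝ) * ((K1 + K2) * (x + y)) ≤ 18 * (m:ℝ) ^ 2 * ((K1 + K2) * (x + y)) :=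
        mul_le_mul_of_nonneg_right this h5
    _ = 18 * (K1 + K2) * (m:ℝ) ^ 2 * (x + y) := by ring

end Pool.Agent.Y341.AL
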